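import Pool.Agent.Lib.WHX.TopW
import Pool.Agent.Lib.THZ.Main

/-!
# Theorem W and tree hierarchies (MP_16fe43_al)

If `Wh(G) = 0` for all groups of geometric dimension at most two, then the class `Cls` of the hand-in
`TreeHierarchies` contains all groups every finitely generated subgroup of which embeds in a product of a group of
geometric dimension at most two and a poly-`ℤ` group.
-/

set_option autoImplicit false

namespace Pool.Agent.Lib.WHF

open Pool.Agent.Lib.GD2 (GeomDimLETwo PolyZ)
open Pool.Agent.Lib.WHX (WhGd2 pw_of_loc)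
open Pool.Agent.Lib.THZ (Cls cls_of_pw)

theorem cls_loc_gd2 (hW : WhGd2) {Γ : Type} [Group Γ]
    (h : ∀ H : Subgroup Γ, H.FG → ∃ (G E : Type) (_ : Group G) (_ : Group E) (f : H →* G × E),
      Function.Injective f ∧ GeomDimLETwo G ∧ PolyZ E) : Cls Γ :=
  cls_of_pw (pw_of_loc hW h)

theorem cls_gd2 (hW : WhGd2) {G : Type} [Group G] (h : GeomDimLETwo G) : Cls G :=
  cls_of_pw (Pool.Agent.Lib.NilT.pw_gd2 h fun L => hW L (h.subgroup L))

end Pool.Agent.Lib.WHF
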